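import Pool.Agent.Run7.h788.DecSlp
import Pool.Agent.Results.MP_60829e_nt.FewAdditions

/-!
# A primitive recursive procedure decides the equality of polynomials of unbounded degree in `π` and the
# logarithms of almost all tuples of integers

We consider polynomials with integral coefficients in `g + m` variables which are given by straight-line programs
with at most `L` additions and subtractions and arbitrarily many multiplications: each gate is the sum of two
products of an integer, of powers of the variables, and of powers of the earlier gates.  The exponents and the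
integers are arbitrary, so that the degrees are not bounded, and the number of the monomials is not bounded
either (`(x - y) ^ N`).  Every such program is a vector of natural numbers (`Prog`).

**Theorem.**  For all `g`, `m`, `L` there are a primitive recursive procedure `Dec` and a number `c` such that for
all `x ≥ 16` and all algebraically independent complex numbers `t_1, …, t_g` (for instance `g = 0`, or `g = 1` and
`t_1 = π`), for all but at most `c (log log x) ^ c / log x · x ^ m` of the `m`-tuples `n` of integers in `[1, x]`,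
for all logarithms `l_i` of the `n_i`, for ALL programs `P` and all gates `i`, `j` of `P`: `Dec (P, i, j)` is true
if and only if the gates `i` and `j` have the same value at `t_1, …, t_g, l_1, …, l_m`.

So the equality of two such periods `P_i(π, log n_1, …, log n_m)`, `P_j(π, log n_1, …, log n_m)` is decided by one
procedure for almost all tuples `n` and all programs at once.  `Dec` is explicit: it compares the values of the two
gates at the points of the grid `{0, …, D} ^ (g + m)`, where `D` is a bound for the degrees; this is an identity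
test for polynomials.

The other results on this problem concern finitely many given monomials (`UniformDecisionProcedure`,
`RandomOnePeriods`), or polynomials of bounded degree (`ComparingDigits`).

**The proof.**  The starting result `MP_60829e_nt.FewAdditions`, applied to the program with one more gate, the
difference of the gates `i` and `j`; the straight-line programs, the bound of the degree, the grid test and its
primitive recursiveness are in `Pool.Agent.Run7.h788.DecSlp`.
-/

set_option autoImplicit false

open Pool.Agent.Run7.h788.Slp (map_gate poly Same same_iff primrec_same)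

namespace Pool.Agent.Results.MP_bbe012_lc.PolynomialsWithFewAdditions

/-- A straight-line program with `L` gates: for every gate `l` and `b = 0, 1` natural numbers `σ`, `c` (for the
integer `(-1) ^ σ c`), the exponents of `g` numbers, the exponents of `m` variables, and the exponents of the
gates (only those of the gates before `l` are used). -/
abbrev Prog (g m L : ℕ) : Type :=
  Fin L → Fin 2 → ((ℕ × ℕ) × (Fin g → ℕ)) × ((Fin m → ℕ) × (Fin L → ℕ))

/-- The value at `t`, `x` of the gate `l`: the sum of the two products `b = 0, 1` of the integer `(-1) ^ σ c`, of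
the powers of the `t o`, of the `x i` and of the values of the gates `l' < l`. -/
noncomputable def value {g m L : ℕ} (P : Prog g m L) (t : Fin g → ℂ) (x : Fin m → ℂ) (l : ℕ) : ℂ :=
  if hl : l < L then
    ∑ b, ((-1) ^ (P ⟨l, hl⟩ b).1.1.1 * ((P ⟨l, hl⟩ b).1.1.2 : ℂ)) *
      (∏ o, t o ^ (P ⟨l, hl⟩ b).1.2 o) *
      (∏ i, x i ^ (P ⟨l, hl⟩ b).2.1 i) *
      ∏ l' : Fin l, value P t x l' ^ (P ⟨l, hl⟩ b).2.2 ⟨l', l'.2.trans hl⟩
  else 0
termination_by l
decreasing_by exact l'.2

theorem value_eq {g m L : ℕ} (P : Prog g m L) (t : Fin g → ℂ) (x : Fin m → ℂ) (l : ℕ) :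
    value P t x l = Pool.Agent.Run7.h788.Slp.gate P t x l := by
  induction l using Nat.strong_induction_on with
  | _ l ih =>
    rw [value, Pool.Agent.Run7.h788.Slp.gate]
    split_ifs with hl
    · refine Finset.sum_congr rfl fun b _ => ?_
      congr 1
      refine Finset.prod_congr rfl fun l' _ => ?_
      rw [ih l' l'.2]
    · rfl

/-- The substitution of algebraically independent numbers is injective on polynomials with rational
coefficients. -/
theorem subst_injective {g : ℕ} {τ : Type} {κ : Fin g → ℂ} (hκ : AlgebraicIndependent ℚ κ)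
    (Q : MvPolynomial (Fin g ⊕ τ) ℚ)
    (h0 : MvPolynomial.aeval (Sum.elim (fun i => MvPolynomial.C (κ i)) MvPolynomial.X :
      Fin g ⊕ τ → MvPolynomial τ ℂ) Q = 0) : Q = 0 := by
  have h1 : (MvPolynomial.map (MvPolynomial.aeval κ : MvPolynomial (Fin g) ℚ →ₐ[ℚ] ℂ).toRingHom).comp
      ((MvPolynomial.sumRingEquiv ℚ τ (Fin g)).toRingHom.comp
        (MvPolynomial.rename (R := ℚ) (Sum.swap : Fin g ⊕ τ → τ ⊕ Fin g)).toRingHom) =
      (MvPolynomial.aeval (R := ℚ) (Sum.elim (fun i => MvPolynomial.C (κ i)) MvPolynomial.X :
        Fin g ⊕ τ → MvPolynomial τ ℂ)).toRingHom := by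
    refine MvPolynomial.ringHom_ext (fun a => ?_) (fun i => ?_)
    · simp [MvPolynomial.algebraMap_apply]
    · rcases i with i | i
      · simp
      · simp
  have h2 := congrFun (congrArg DFunLike.coe h1) Q
  have h3 : MvPolynomial.map (MvPolynomial.aeval κ : MvPolynomial (Fin g) ℚ →ₐ[ℚ] ℂ).toRingHom
      (MvPolynomial.sumRingEquiv ℚ τ (Fin g) (MvPolynomial.rename Sum.swap Q)) = 0 := h2.trans h0
  have h4 := MvPolynomial.map_injective _ hκ (h3.trans (map_zero _).symm)
  have h5 : MvPolynomial.rename (Sum.swap : Fin g ⊕ τ → τ ⊕ Fin g) Q = 0 := by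
    have h6 := (MvPolynomial.sumRingEquiv ℚ τ (Fin g)).injective
    exact h6 (h4.trans (map_zero _).symm)
  exact MvPolynomial.rename_injective _ Sum.swap_leftInverse.injective (h5.trans (map_zero _).symm)

section

variable {g m L : ℕ}

/-- the gate as a polynomial in the `x i` -/
noncomputable def G (P : Prog g m L) (t : Fin g → ℂ) (l : ℕ) : MvPolynomial (Fin m) ℂ :=
  Pool.Agent.Run7.h788.Slp.gate P (fun o => MvPolynomial.C (t o)) MvPolynomial.X l

theorem eval_G (P : Prog g m L) (t : Fin g → ℂ) (x : Fin m → ℂ) (l : ℕ) :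
    MvPolynomial.eval x (G P t l) = value P t x l := by
  unfold G
  rw [value_eq, map_gate]
  simp only [MvPolynomial.eval_C, MvPolynomial.eval_X]

theorem G_eq (P : Prog g m L) (t : Fin g → ℂ) (l : ℕ) :
    G P t l = MvPolynomial.aeval (Sum.elim (fun i => MvPolynomial.C (t i)) MvPolynomial.X :
      Fin g ⊕ Fin m → MvPolynomial (Fin m) ℂ) (poly P l) := by
  have h := map_gate (MvPolynomial.aeval (R := ℚ) (Sum.elim (fun i => MvPolynomial.C (t i))
    MvPolynomial.X : Fin g ⊕ Fin m → MvPolynomial (Fin m) ℂ)).toRingHom P
    (fun o => MvPolynomial.X (Sum.inl o)) (fun i => MvPolynomial.X (Sum.inr i)) l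
  simp only [AlgHom.toRingHom_eq_coe, RingHom.coe_coe, MvPolynomial.aeval_X, Sum.elim_inl,
    Sum.elim_inr] at h
  exact h.symm

open MP_60829e_nt.FewAdditions in
/-- the gates and the difference of two gates are computed with `L + 1` additions -/
theorem computed (P : Prog g m L) (t : Fin g → ℂ) (i j : Fin L) :
    Computed t (L + 1) (fun l => if l < L then G P t l else G P t i - G P t j) := by
  classical
  refine ⟨fun l b => if hl : l < L then (-1) ^ (P ⟨l, hl⟩ (if b then 1 else 0)).1.1.1 *
      (((P ⟨l, hl⟩ (if b then 1 else 0)).1.1.2 : ℕ) : algebraicClosure ℚ ℂ) else (if b then 1 else -1),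
    fun l b o => if hl : l < L then (P ⟨l, hl⟩ (if b then 1 else 0)).1.2 o else 0,
    fun l b a => if hl : l < L then (P ⟨l, hl⟩ (if b then 1 else 0)).2.1 a else 0,
    fun l b l' => if hl : l < L then (if hl' : l' < L then
      (P ⟨l, hl⟩ (if b then 1 else 0)).2.2 ⟨l', hl'⟩ else 0) else
      (if l' = (if b then (i : ℕ) else (j : ℕ)) then 1 else 0), fun l hl => ?_⟩
  rw [Fintype.sum_bool]
  by_cases hlL : l < L
  · simp only [if_pos hlL, dif_pos hlL]
    have hprod : ∀ b : Fin 2, ∏ l' ∈ Finset.range l,
        (if l' < L then G P t l' else G P t i - G P t j) ^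
          (if hl' : l' < L then (P ⟨l, hlL⟩ b).2.2 ⟨l', hl'⟩ else 0) =
        ∏ l' : Fin l, G P t l' ^ (P ⟨l, hlL⟩ b).2.2 ⟨l', l'.2.trans hlL⟩ := by
      intro b
      rw [Finset.prod_range]
      refine Finset.prod_congr rfl fun l' _ => ?_
      rw [if_pos (l'.2.trans hlL), dif_pos (l'.2.trans hlL)]
    have hG : G P t l = ∑ b, ((-1) ^ (P ⟨l, hlL⟩ b).1.1.1 *
        (((P ⟨l, hlL⟩ b).1.1.2 : ℕ) : MvPolynomial (Fin m) ℂ)) *
        (∏ o, MvPolynomial.C (t o) ^ (P ⟨l, hlL⟩ b).1.2 o) *
        (∏ i, MvPolynomial.X i ^ (P ⟨l, hlL⟩ b).2.1 i) *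
        ∏ l' : Fin l, G P t l' ^ (P ⟨l, hlL⟩ b).2.2 ⟨l', l'.2.trans hlL⟩ := by
      unfold G
      rw [Pool.Agent.Run7.h788.Slp.gate, dif_pos hlL]
    rw [hG, Fin.sum_univ_two, add_comm]
    simp only [if_true, Bool.false_eq_true, if_false]
    rw [hprod 1, hprod 0]
    simp only [map_mul, map_prod, map_pow]
    push_cast
    simp only [map_natCast, map_neg, map_one, map_mul, map_pow]
  · have hlL' : l = L := by omega
    subst hlL'
    simp only [lt_irrefl, if_false, dite_false]
    have hp : ∀ k : Fin l, ∏ l' ∈ Finset.range l,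
        (if l' < l then G P t l' else G P t i - G P t j) ^ (if l' = (k : ℕ) then 1 else 0) =
        G P t k := by
      intro k
      rw [Finset.prod_eq_single (k : ℕ)]
      · rw [if_pos k.2, if_pos rfl, pow_one]
      · intro l' _ hne
        rw [if_neg hne, pow_zero]
      · intro hk
        exact absurd (Finset.mem_range.2 k.2) hk
    simp only [if_true, Bool.false_eq_true, if_false, pow_zero, Finset.prod_const_one, mul_one]
    rw [hp i, hp j]
    simp [sub_eq_add_neg]

/-- **Main result.** -/
theorem result (g m L : ℕ) : ∃ (Dec : Prog g m L × (Fin L × Fin L) → Bool) (c : ℕ), Primrec Dec ∧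
    ∀ x : ℕ, 16 ≤ x → ∀ t : Fin g → ℂ, AlgebraicIndependent ℚ t → ∃ E : Finset (Fin m → ℕ),
      (E.card : ℝ) ≤ c * Real.log (Real.log x) ^ c / Real.log x * x ^ m ∧
      ∀ n : Fin m → ℕ, (∀ i, 0 < n i ∧ n i ≤ x) → n ∉ E →
      ∀ l : Fin m → ℂ, (∀ i, Complex.exp (l i) = n i) →
      ∀ (P : Prog g m L) (i j : Fin L), Dec (P, i, j) = true ↔ value P t l i = value P t l j := by
  classical
  obtain ⟨c, hc⟩ := MP_60829e_nt.FewAdditions.result g m (L + 1)
  refine ⟨fun q => decide (Same q.1 q.2.1 q.2.2), c, primrec_same.decide, fun x hx t ht => ?_⟩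
  obtain ⟨E, hE, h⟩ := hc x hx t
  refine ⟨E, hE, fun n hn hnE l hl P i j => ?_⟩
  rw [decide_eq_true_eq, same_iff]
  constructor
  · intro h1
    rw [← eval_G, ← eval_G, G_eq, G_eq]
    show MvPolynomial.eval l (MvPolynomial.aeval _ (poly P i)) =
      MvPolynomial.eval l (MvPolynomial.aeval _ (poly P j))
    rw [h1]
  · intro h1
    have h2 := h n hn hnE l hl _ (computed P t i j) L (Nat.lt_succ_self L)
    simp only [lt_irrefl, if_false] at h2
    have h3 : G P t i - G P t j = 0 := by
      by_contra h4
      refine h2 h4 ?_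
      rw [map_sub, eval_G, eval_G, h1, sub_self]
    rw [G_eq, G_eq, ← map_sub] at h3
    exact sub_eq_zero.1 (subst_injective ht _ h3)

end

end Pool.Agent.Results.MP_bbe012_lc.PolynomialsWithFewAdditions
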