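import Pool.Agent.Run7.h469.TR.Pbbe012
import Pool.Agent.Run7.h469.Vm

/-!
# One primitive recursive procedure for the periods of the fibres over products of linear forms in almost all integer vectors

We consider `k` symplectic hypergeometric equations, arbitrary complex matrices `Ω_i` and complex numbers `κ_j`, and finitely many
monomials in the numbers `κ_j`, `log t_i` and the entries of the period matrices `Ỹ_i(t_i) Ω_i` of the fibres at `1 / t_i`, as in the
result `UniformDecisionProcedure` of this problem (`κ` and `Ω` are for instance the periods of the limit mixed motives). There it is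
proved that one primitive recursive function `D` decides for almost all tuples `t` of natural numbers which linear combinations of
the monomials, with natural coefficients, have the same value; the number of the exceptional tuples up to `U` is at most
`C U^(k - c)`.

Let `h ≥ 1` (for `h = 1` there are no products, only linear forms). We prove that there is ONE primitive recursive function `D`,
independent of `h`, of the number `D'` of the variables and of all the other parameters, such that for all integer vectors `x` in
`[-X, X]^D'` with at most `C' Q^(k h (D' + 2)) X^(D' - c)` exceptions `D` decides this for the fibres at `1 / |t_i|` for ALL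
`k`-tuples `t` of products of `h` linear forms, `t_i = ∏_(j ≤ h) y_(i,j)` with `y = M x + b`, `M` an integral matrix of rank `k h`,
`b` an integral vector, the entries of `M` and `b` at most `Q`, all `y_(i,j) ≠ 0`, if all `|t_i| ≥ 2`. Here `Q` can be a small power
of `X`. We prove a similar result for the integer vectors near `N_n α`, `N_n` a lacunary sequence (for instance the truncations of
the expansions in base `g`, `N_n = g^n`), for all real vectors `α` outside a set of dimension less than `D'`, and `M`, `b` with
entries up to a power of `N_n`.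

The products of `h` integers form a set of density zero, and so the result for `h ≥ 2` does not follow from the number of the
exceptional tuples alone: the divisor bound shows that few vectors `y` have an exceptional tuple of products, and for each of the
possible `M`, `b` the map `x ↦ M x + b` has small fibres.
-/

set_option autoImplicit false

namespace Pool.Agent.Results.MP_bbe012_lc.ProductsOfLinearForms

open Finset MeasureTheory
open Run7.h469.Vk (Hits Lacunary Generic Avoids)
open Run7.h469.Vm (ProductIn)
open Run7.h469.TR.Pbbe012 (Decides few)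
open Pool.Agent.Results.MP_57341d_ag.HypergeometricOrthogonal (Eqn)
open Pool.Agent.Results.MP_bbe012_lc.UniformDecisionProcedure (Coord periods value)

/-- The `k`-tuples of nonzero integers for which `D` does not decide the equality of the combinations of the monomials. -/
def Bad {k r M : ℕ} {e : Fin k → Eqn} {q : Fin k → ℕ} (mon : Fin M → (Coord r e q →₀ ℕ)) (κ : Fin r → ℂ)
    (Ω : ∀ i, Matrix (Fin (e i).order ⊕ Fin (q i)) (Fin (e i).order ⊕ Fin (q i)) ℂ)
    (D : (Fin M → ℕ) × (Fin M → ℕ) → Bool) : Set (Fin k → ℤ) :=
  {t | (∀ i, t i ≠ 0) ∧ ¬ Decides mon κ Ω D t}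

/-- **One procedure for the periods over products of linear forms.** Let `k ≥ 1` symplectic hypergeometric equations with maximally
unipotent monodromy at `0` and finitely many monomials be given. There is `c > 0` and for `h ≥ 1` there is `C h` such that for all
`κ` and `Ω` there is a primitive recursive function `D` with the following properties for all `h ≥ 1`: (1) for all `D'` and
`X, Q ≥ 1`, for all but `C h ((D' + 1)^(k h) 3^((k h + 1) (D' + 1))) Q^(k h (D' + 2)) X^(D' - c)` of the integer vectors `x` in
`[-X, X]^D'` no tuple of the products `∏_(j ≤ h) y_(i,j)` of nonzero coordinates of a vector `y = M x + b`, `M` integral of rank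
`k h`, with entries of `M` and `b` at most `Q`, is bad: if all the products are at least `2` in absolute value, `D` decides which
combinations of the monomials have the same value; (2) for lacunary `N_i` and `η ≥ 0`, outside a set of `α` in `ℝ^D'` of dimension
at most `D' - c + k h (D' + 2) η`, for all `A`, for all large `i` the same is true for the integer vectors `x` with
`|x - N_i α| ≤ A` and `M`, `b` with entries at most `A N_i^η`; (3) in particular it is true for almost all `α`, if
`k h (D' + 2) η < c`. -/
theorem result (k : ℕ) (hk : 1 ≤ k) (e : Fin k → Eqn) (he : ∀ i, (e i).Admissible) (heven : ∀ i, (e i).odd = false)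
    (q : Fin k → ℕ) (r M : ℕ) (mon : Fin M → (Coord r e q →₀ ℕ)) :
    ∃ c : ℝ, 0 < c ∧ ∃ C : ℕ → ℝ, ∀ (κ : Fin r → ℂ)
      (Ω : ∀ i, Matrix (Fin (e i).order ⊕ Fin (q i)) (Fin (e i).order ⊕ Fin (q i)) ℂ),
      ∃ D : (Fin M → ℕ) × (Fin M → ℕ) → Bool, Primrec D ∧ ∀ h : ℕ, 1 ≤ h →
      (∀ D' X Q : ℕ, 1 ≤ X → 1 ≤ Q →
        (({x : Fin D' → ℤ | (∀ j, |x j| ≤ X) ∧ x ∈ Hits (ProductIn h (Bad mon κ Ω D)) D' Q}.ncard : ℕ) : ℝ) ≤
          C h * (((D' : ℝ) + 1) ^ (k * h) * 3 ^ ((k * h + 1) * (D' + 1))) * (Q : ℝ) ^ (k * h * (D' + 2)) *
            (X : ℝ) ^ ((D' : ℝ) - c)) ∧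
      (∀ D' : ℕ, 1 ≤ D' → ∀ N : ℕ → ℝ, Lacunary N → ∀ η : ℝ, 0 ≤ η →
        Generic ((D' : ℝ) - c + k * h * (D' + 2) * η)
          (fun α : Fin D' → ℝ => Avoids (ProductIn h (Bad mon κ Ω D)) N η α)) ∧
      ∀ D' : ℕ, 1 ≤ D' → ∀ N : ℕ → ℝ, Lacunary N → ∀ η : ℝ, 0 ≤ η → k * h * (D' + 2) * η < c →
        ∀ᵐ α : Fin D' → ℝ, Avoids (ProductIn h (Bad mon κ Ω D)) N η α := by
  obtain ⟨c, hc, hc1, C, hC, hf⟩ := few k hk e he heven q r M mon
  have key : ∀ h : ℕ, 1 ≤ h → _ := fun h hh =>
    Run7.h469.Vm.products_of_forms (k := k) (b := h) hk hh hC (c := c) (c' := c / 2)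
      (by linarith) (by linarith) (by
        have hh1 : (1 : ℝ) ≤ h := by exact_mod_cast hh
        nlinarith)
  refine ⟨c / 2, by linarith, fun h => if hh : 1 ≤ h then (key h hh).choose else 0, fun κ Ω => ?_⟩
  obtain ⟨D, hD, hf⟩ := hf κ Ω
  refine ⟨D, hD, fun h hh => ?_⟩
  simp only [hh, dif_pos]
  exact (key h hh).choose_spec.2 _ hf

end Pool.Agent.Results.MP_bbe012_lc.ProductsOfLinearForms
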