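import Pool.Agent.Results.MP_725b61_nt.RandomOneMotives
import Pool.Agent.Run7.h893.DP.Alg

/-!
# One primitive recursive procedure decides the equality of polynomials in random 1-periods

The periods of 1-motives with toric and elliptic parts are generated by logarithms of algebraic numbers,
elliptic logarithms of algebraic points and integrals of the second kind with algebraic end points, on
elliptic curves over the algebraic numbers, and by the periods of these curves.  Equality of LINEAR
combinations of such numbers can in principle be tested by the theorems of Baker and Wüstholz; here we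
consider polynomials.

Let `E_j = ℂ/Ω_j`, `j ≤ n₁`, be elliptic curves with complex multiplication and `E'_j = ℂ/Ω'_j`, `j ≤ n₂`,
ARBITRARY elliptic curves over the algebraic numbers, with integrals `J_j(z) = σ_j ζ(z) + ρ_j z` of the
second kind on `E'_j`.  Let `u_{j,1}, …, u_{j,k}` be elliptic logarithms of ARBITRARY algebraic points of
`E_j`, linearly independent over `End(E_j) ⊗ ℚ`, `v_{j,1}, …, v_{j,k}` such elliptic logarithms for `E'_j`,
and `λ_{j,1}, …, λ_{j,k}` (`j ≤ r`) logarithms of algebraic numbers, linearly independent over `ℚ`, and let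

  `p_j = b_j + ∑_i (m_{j,i,0} + m_{j,i,1} α_j) u_{j,i}`,  `q_j = c_j + ∑_i m'_{j,i} v_{j,i}`,
  `y_j = τ_j + ∑_i m''_{j,i} λ_{j,i}`

with all the coefficients in a finite set `A` of integers (`CMGroup`, `EllGroup`, `LogGroup`, `coeffs` in
`MP_725b61_nt.RandomOneMotives`).

**Theorem.** Let monomials `mon_1, …, mon_M` be given in variables for `g` numbers `κ_j` (for instance `π`,
or the periods of fixed curves), for the numbers `p_j`, `ζ(p_j)`, `J_j(q_j)`, `y_j` and for `h` further
logarithms `l_1, …, l_h`, of total degree at most one in the last group.  There are `k₀`, `C` and `δ > 0`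
such that for all complex numbers `κ_1, …, κ_g` there is a primitive recursive function `Dec` on pairs of
vectors of `M` natural numbers such that, for all `k ≥ k₀`, ALL curves, integrals, elliptic logarithms and
logarithms as above and all `A`, for all but `C |A| ^ ((2 n₁ + n₂ + r) k - δ k)` of the coefficients `m`: the
points `p_j`, `q_j` are not in the lattices and algebraic, and there is a space `F` of dimension at most `C`
of linear forms in `1` and logarithms such that the `y_j` are independent modulo `F` and for ALL linear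
forms `l_1, …, l_h` in `1` and logarithms of algebraic numbers which are independent modulo `F` and the
`y_j`, and all vectors `a`, `b`:

  `Dec (a, b)` is true if and only if `∑_i a_i mon_i = ∑_i b_i mon_i` at `κ`, `p`, `ζ(p)`, `J(q)`, `y`, `l`

(each relation with integral coefficients can be brought to this form).  The procedure does not depend on
the curves, on the logarithms and on the points: it is the test whether the equality is a consequence of the
relations between the `κ_j`; and if the `κ_j` are algebraically independent, for instance for `g = 0` or for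
`g = 1`, `κ_1 = π`, and the monomials are different, then `Dec (a, b)` is true if and only if `a = b`.

In the starting result `ComparingDigits` the periods are hyperlogarithms at random algebraic integers, and in
`UniformDecisionProcedure` (helper893) those of the fibres of hypergeometric families; neither contains
elliptic or logarithmic periods at points of given groups.

**The proof.**  The theorem `MP_725b61_nt.RandomOneMotives` (no new relations) and the lemmas of helper893 on
integral linear forms (`Run7.h893.DP`).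
-/

set_option autoImplicit false

open scoped PeriodPair
open Pool.Agent.Results.MP_725b61_nt.RandomOneMotives (Qbar LogForms CMGroup EllGroup LogGroup Further
  atNumbers NoNewRelations Coeffs coeffs ellNumbers)

noncomputable section

namespace Pool.Agent.Results.MP_bbe012_lc.RandomOnePeriods

/-- The variables: `g` given numbers, the numbers `p_j`, `ζ(p_j)`, `J_j(q_j)`, the random logarithms
`y_j` and `h` further logarithms `l_j`. -/
abbrev Var (g n₁ n₂ r h : ℕ) : Type := Fin g ⊕ (((Fin n₁ ⊕ Fin n₁) ⊕ Fin n₂) ⊕ (Fin r ⊕ Fin h))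

/-- The value at `x` of the combination of the monomials `mon_i` with the coefficients `a_i`. -/
def value {V : Type} {M : ℕ} (mon : Fin M → (V →₀ ℕ)) (x : V → ℂ) (a : Fin M → ℕ) : ℂ :=
  ∑ i, (a i : ℂ) * (mon i).prod fun v n => x v ^ n

/-- The points are not in the lattices, they are algebraic, and the procedure `Dec` decides the equality
of the combinations of the monomials in the given numbers `κ`, the random 1-periods with the coefficients
`m` and all further logarithms which are independent modulo some space `F` and the random logarithms. -/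
def Decides {n₁ n₂ r k : ℕ} (d : Fin n₁ → CMGroup k) (e : Fin n₂ → EllGroup k) (f : Fin r → LogGroup k)
    (C : ℕ) {g h M : ℕ} (κ : Fin g → ℂ) (mon : Fin M → (Var g n₁ n₂ r h →₀ ℕ))
    (Dec : (Fin M → ℕ) × (Fin M → ℕ) → Bool) (m : Coeffs n₁ n₂ r k) : Prop :=
  (∀ j, (d j).point (m.1.1 j) ∉ (d j).L.lattice ∧ IsAlgebraic ℚ (℘[(d j).L] ((d j).point (m.1.1 j)))) ∧
  (∀ j, (e j).point (m.1.2 j) ∉ (e j).L.lattice ∧ IsAlgebraic ℚ (℘[(e j).L] ((e j).point (m.1.2 j)))) ∧
  ∃ F : Submodule Qbar ℂ, Module.Finite Qbar F ∧ Module.finrank Qbar F ≤ C ∧ F ≤ LogForms ∧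
    (∀ c : Fin r → Qbar, ∑ i, c i • (f i).point (m.2 i) ∈ F → ∀ i, c i = 0) ∧
    ∀ l : Fin h → ℂ, Further F (fun j => (f j).point (m.2 j)) l → ∀ a b : Fin M → ℕ,
      Dec (a, b) = true ↔
        value mon (Sum.elim κ (Sum.elim (ellNumbers d e m) (Sum.elim (fun j => (f j).point (m.2 j)) l))) a =
        value mon (Sum.elim κ (Sum.elim (ellNumbers d e m) (Sum.elim (fun j => (f j).point (m.2 j)) l))) b

/-- The substitution of algebraically independent numbers is injective on polynomials with rational
coefficients. -/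
theorem subst_injective {g : ℕ} {τ : Type} {κ : Fin g → ℂ} (hκ : AlgebraicIndependent ℚ κ)
    (Q : MvPolynomial (Fin g ⊕ τ) ℚ)
    (h0 : MvPolynomial.aeval (Sum.elim (fun i => MvPolynomial.C (κ i)) MvPolynomial.X :
      Fin g ⊕ τ → MvPolynomial τ ℂ) Q = 0) : Q = 0 := by
  have h1 : (MvPolynomial.map (MvPolynomial.aeval κ : MvPolynomial (Fin g) ℚ →ₐ[ℚ] ℂ).toRingHom).comp
      ((MvPolynomial.sumRingEquiv ℚ τ (Fin g)).toRingHom.comp
        (MvPolynomial.rename (R := ℚ) (Sum.swap : Fin g ⊕ τ → τ ⊕ Fin g)).toRingHom) =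
      (MvPolynomial.aeval (R := ℚ) (Sum.elim (fun i => MvPolynomial.C (κ i)) MvPolynomial.X :
        Fin g ⊕ τ → MvPolynomial τ ℂ)).toRingHom := by
    refine MvPolynomial.ringHom_ext (fun a => ?_) (fun i => ?_)
    · simp [MvPolynomial.algebraMap_apply]
    · rcases i with i | i
      · simp
      · simp
  have h2 := congrFun (congrArg DFunLike.coe h1) Q
  have h3 : MvPolynomial.map (MvPolynomial.aeval κ : MvPolynomial (Fin g) ℚ →ₐ[ℚ] ℂ).toRingHom
      (MvPolynomial.sumRingEquiv ℚ τ (Fin g) (MvPolynomial.rename Sum.swap Q)) = 0 := h2.trans h0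
  have h4 := MvPolynomial.map_injective _ hκ (h3.trans (map_zero _).symm)
  have h5 : MvPolynomial.rename (Sum.swap : Fin g ⊕ τ → τ ⊕ Fin g) Q = 0 := by
    have h6 := (MvPolynomial.sumRingEquiv ℚ τ (Fin g)).injective
    exact h6 (h4.trans (map_zero _).symm)
  exact MvPolynomial.rename_injective _ Sum.swap_leftInverse.injective (h5.trans (map_zero _).symm)

open Classical in
/-- **Main result.** -/
theorem result (g n₁ n₂ r h M : ℕ) (mon : Fin M → (Var g n₁ n₂ r h →₀ ℕ))
    (hmon : ∀ i, ∑ j, mon i (Sum.inr (Sum.inr (Sum.inr j))) ≤ 1) :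
    ∃ (k₀ C : ℕ) (δ : ℝ), 0 < δ ∧ ∀ κ : Fin g → ℂ,
    ∃ Dec : (Fin M → ℕ) × (Fin M → ℕ) → Bool, Primrec Dec ∧
    (AlgebraicIndependent ℚ κ → Function.Injective mon → ∀ a b, Dec (a, b) = true ↔ a = b) ∧ ∀ k ≥ k₀,
    ∀ (d : Fin n₁ → CMGroup k) (e : Fin n₂ → EllGroup k) (f : Fin r → LogGroup k),
    ∀ A : Finset ℤ, A.Nonempty →
    (((coeffs n₁ n₂ r k A).filter (fun m => ¬ Decides d e f C κ mon Dec m)).card : ℝ) ≤
      C * (A.card : ℝ) ^ (((2 * n₁ + n₂ + r) * k : ℝ) - δ * k) := by
  obtain ⟨D, hD⟩ : ∃ D : ℕ, ∀ i v, mon i v ≤ D :=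
    ⟨Finset.univ.sup fun i => Finset.univ.sup fun v => mon i v, fun i v =>
      (Finset.le_sup (f := fun v => mon i v) (Finset.mem_univ v)).trans
        (Finset.le_sup (f := fun i => Finset.univ.sup fun v => mon i v) (Finset.mem_univ i))⟩
  obtain ⟨k₀, C, δ, hδ, hmain⟩ :=
    Pool.Agent.Results.MP_725b61_nt.RandomOneMotives.result n₁ n₂ r g D
  refine ⟨k₀, C, δ, hδ, fun κ => ?_⟩
  set φ : Fin M → MvPolynomial (((Fin n₁ ⊕ Fin n₁) ⊕ Fin n₂) ⊕ (Fin r ⊕ Fin h)) ℂ := fun i =>
    atNumbers κ (MvPolynomial.monomial (mon i) 1) with hφ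
  obtain ⟨R, B, hB⟩ := Run7.h893.DP.exists_forms φ
  refine ⟨Run7.h893.DP.test B, Run7.h893.DP.primrec_test B, fun hκ hinj a b => ?_,
    fun k hk d e f A hA => ?_⟩
  · rw [Run7.h893.DP.test_iff, ← hB]
    constructor
    · intro h0
      have h1 := subst_injective hκ (∑ i, MvPolynomial.monomial (mon i) (((a i : ℤ) - b i : ℤ) : ℚ)) (by
        rw [← h0, map_sum]
        refine Finset.sum_congr rfl fun i _ => ?_
        rw [hφ]
        simp only [atNumbers]
        rw [MvPolynomial.aeval_monomial, MvPolynomial.aeval_monomial, map_one, one_mul,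
          Algebra.smul_def])
      funext i
      have h2 := congrArg (MvPolynomial.coeff (mon i)) h1
      rw [MvPolynomial.coeff_sum, MvPolynomial.coeff_zero, Finset.sum_eq_single i] at h2
      · rw [MvPolynomial.coeff_monomial, if_pos rfl] at h2
        have h3 : ((a i : ℤ) - b i : ℤ) = 0 := by exact_mod_cast h2
        omega
      · intro j _ hj
        rw [MvPolynomial.coeff_monomial, if_neg fun h4 => hj (hinj h4)]
      · intro h4
        exact absurd (Finset.mem_univ i) h4
    · rintro rfl
      simp
  refine le_trans (Nat.cast_le.2 (Finset.card_le_card ?_)) (hmain k hk d e f A hA κ)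
  intro m hm
  rw [Finset.mem_filter] at hm ⊢
  refine ⟨hm.1, fun hG => hm.2 ?_⟩
  obtain ⟨hp, hq, F, hF1, hF2, hF3, hF4, hF5, -⟩ := hG
  refine ⟨hp, hq, F, hF1, hF2, hF3, hF4, fun l hl a b => ?_⟩
  -- the polynomial
  have hP : ∀ c : Fin M → ℤ, ∀ v, MvPolynomial.eval v (∑ i, (c i : ℚ) • φ i) =
      ∑ i, (c i : ℂ) * (mon i).prod fun w n => (Sum.elim κ v : _ → ℂ) w ^ n := by
    intro c v
    rw [map_sum]
    refine Finset.sum_congr rfl fun i _ => ?_
    have h1 : MvPolynomial.eval v (φ i) =
        MvPolynomial.aeval (Sum.elim κ v) (MvPolynomial.monomial (mon i) (1 : Qbar)) :=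
      Run7.h788.eval_subF κ v _
    have h2 : (c i : ℚ) • φ i = MvPolynomial.C (c i : ℂ) * φ i := by
      refine MvPolynomial.ext _ _ fun β => ?_
      rw [MvPolynomial.coeff_smul, MvPolynomial.coeff_C_mul, Rat.smul_def]
      push_cast
      rfl
    rw [h2, map_mul, MvPolynomial.eval_C, h1, MvPolynomial.aeval_monomial, map_one, one_mul]
  have hval : ∀ v, value mon (Sum.elim κ v) a = value mon (Sum.elim κ v) b ↔
      MvPolynomial.eval v (∑ i, (((a i : ℤ) - b i : ℤ) : ℚ) • φ i) = 0 := by
    intro v
    rw [hP, ← sub_eq_zero]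
    unfold value
    rw [← Finset.sum_sub_distrib]
    have h1 : ∑ i, ((a i : ℂ) * ((mon i).prod fun w n => (Sum.elim κ v : _ → ℂ) w ^ n) -
        (b i : ℂ) * (mon i).prod fun w n => (Sum.elim κ v : _ → ℂ) w ^ n) =
        ∑ i, (((a i : ℤ) - b i : ℤ) : ℂ) * (mon i).prod fun w n => (Sum.elim κ v : _ → ℂ) w ^ n := by
      refine Finset.sum_congr rfl fun i _ => ?_
      push_cast
      ring
    rw [h1]
  rw [Run7.h893.DP.test_iff, ← hB, hval]
  constructor
  · intro h0
    rw [h0, map_zero]
  · intro h0
    set P : MvPolynomial (Var g n₁ n₂ r h) Qbar :=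
      ∑ i, MvPolynomial.monomial (mon i) (((a i : ℤ) - b i : ℤ) : Qbar) with hPd
    have hsupp : ∀ β ∈ P.support, ∃ i, β = mon i := by
      intro β hβ
      rw [MvPolynomial.mem_support_iff, hPd, MvPolynomial.coeff_sum] at hβ
      obtain ⟨i, -, hi⟩ := Finset.exists_ne_zero_of_sum_ne_zero hβ
      rw [MvPolynomial.coeff_monomial] at hi
      split_ifs at hi with h1
      · exact ⟨i, h1.symm⟩
      · exact absurd rfl hi
    have hdeg : ∀ v, P.degreeOf v ≤ D := by
      intro v
      rw [MvPolynomial.degreeOf_le_iff]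
      intro β hβ
      obtain ⟨i, rfl⟩ := hsupp β hβ
      exact hD i v
    have hat : atNumbers κ P = ∑ i, (((a i : ℤ) - b i : ℤ) : ℚ) • φ i := by
      unfold atNumbers
      rw [hPd, map_sum]
      refine Finset.sum_congr rfl fun i _ => ?_
      have h1 : (MvPolynomial.monomial (mon i) (((a i : ℤ) - b i : ℤ) : Qbar) :
          MvPolynomial (Var g n₁ n₂ r h) Qbar) =
          ((((a i : ℤ) - b i : ℤ)) : MvPolynomial (Var g n₁ n₂ r h) Qbar) *
            MvPolynomial.monomial (mon i) 1 := by
        rw [← map_intCast (MvPolynomial.C : Qbar →+* MvPolynomial (Var g n₁ n₂ r h) Qbar),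
          MvPolynomial.C_mul_monomial, mul_one]
      rw [h1, map_mul, map_intCast]
      refine MvPolynomial.ext _ _ fun β => ?_
      rw [MvPolynomial.coeff_smul, Rat.smul_def,
        ← map_intCast (MvPolynomial.C : ℂ →+* MvPolynomial _ ℂ), MvPolynomial.coeff_C_mul]
      push_cast
      rfl
    rw [← hat]
    refine hF5 h l hl P (fun i => hdeg _) (fun i => hdeg _) (fun i => hdeg _) ?_ ?_
    · intro β hβ
      obtain ⟨i, rfl⟩ := hsupp β hβ
      exact hmon i
    · rw [← Run7.h788.eval_subF]
      have h3 : Run7.h788.subF κ P = atNumbers κ P := rfl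
      rw [h3, hat]
      exact h0

end Pool.Agent.Results.MP_bbe012_lc.RandomOnePeriods
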