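import Pool.Agent.Run7.h893.NP.Few
import Pool.Agent.Run7.h893.DP.Alg

/-!
# One primitive recursive procedure decides the equality of the polynomials in the periods of almost all fibres

Let `θ^n f = z Q(θ) f`, `n = 2m`, `Q = ∏_j (x^2 - β_j^2)`, be a symplectic hypergeometric equation with maximally unipotent
monodromy at `z = 0` (`Eqn` with `odd = false`, see `HypergeometricOrthogonal` of MP_57341d_ag; for example the Picard-Fuchs
equations of families of elliptic curves and of the mirror families of Calabi-Yau threefolds with one parameter), and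
`f_0, …, f_{n+q-1}` the coefficients at `ε^j` of the Frobenius series: the solutions of the equation and the solutions of
the inhomogeneous equations `(θ^n - z Q(θ)) f_{n+j} = (log z)^j / j!` (see `HypergeometricNormalFunctions` of MP_1eadae_ag). The
fibre at `z = 1 / t` of the motive (an extension of a mixed Tate motive by a pure motive of weight `n - 1`) has the period matrix
`Ỹ(t) Ω`, where `Ỹ(t) = (Y, U; 0, E)`, `Y = (θ^a f_b)(1 / t)`, `U = (θ^a f_{n+b})(1 / t)`, `E` is the unipotent matrix of the
powers of `-log t`, and `Ω` is a matrix of constants: the periods of the limit mixed motive.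

We consider finitely many such equations, arbitrary complex matrices `Ω_i` and further complex numbers `κ_1, …, κ_r` (for
example `π` and `ζ(3)`). Given are finitely many monomials in the numbers `κ_j`, `log t_i` and the entries of the
matrices `Ỹ_i(t_i) Ω_i`. We show that there is one procedure, a primitive recursive function `D`, which decides for almost
all tuples `t` which linear combinations of the monomials, with coefficients in the natural numbers, have the same value
(every relation with integral coefficients can be brought to this form). The procedure does not depend on `t`; it compares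
the values of finitely many integral linear forms in the coefficients. The bound for the number of the exceptional tuples
depends only on the equations and on the monomials, not on `κ` and `Ω_i`.
-/

set_option autoImplicit false

open Pool.Agent.Results.MP_57341d_ag.HypergeometricOrthogonal (Eqn)
open Pool.Agent.Results.MP_1eadae_ag.HypergeometricNormalFunctions (point Yfull unip)

namespace Pool.Agent.Results.MP_bbe012_lc.UniformDecisionProcedure

/-- the coordinates: `r` numbers, and for every `i` a number and a matrix -/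
abbrev Coord {k : ℕ} (r : ℕ) (e : Fin k → Eqn) (q : Fin k → ℕ) : Type :=
  Fin r ⊕ Σ i : Fin k, Option ((Fin (e i).order ⊕ Fin (q i)) × (Fin (e i).order ⊕ Fin (q i)))

/-- the point with the coordinates `κ_j`, `log t_i` and the entries of the matrices `Ỹ_i(t_i) Ω_i` -/
noncomputable def periods {k r : ℕ} {e : Fin k → Eqn} {q : Fin k → ℕ} (κ : Fin r → ℂ)
    (Ω : ∀ i, Matrix (Fin (e i).order ⊕ Fin (q i)) (Fin (e i).order ⊕ Fin (q i)) ℂ) (t : Fin k → ℕ) : Coord r e q → ℂ :=
  Sum.elim κ (point (fun i => ((Real.log (t i) : ℝ) : ℂ)) fun i => Yfull (e i) (q i) (t i) * Ω i)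

/-- the value at `p` of the combination of the monomials `mon_m` with the coefficients `a_m` -/
noncomputable def value {k r M : ℕ} {e : Fin k → Eqn} {q : Fin k → ℕ} (mon : Fin M → (Coord r e q →₀ ℕ))
    (p : Coord r e q → ℂ) (a : Fin M → ℕ) : ℂ := ∑ m, (a m : ℂ) * (mon m).prod fun c n => p c ^ n

/-- the part of a monomial in the variables `κ_j` -/
noncomputable def left {α β : Type*} (m : α ⊕ β →₀ ℕ) : α →₀ ℕ := m.comapDomain Sum.inl Sum.inl_injective.injOn

/-- the part of a monomial in the other variables -/
noncomputable def right {α β : Type*} (m : α ⊕ β →₀ ℕ) : β →₀ ℕ := m.comapDomain Sum.inr Sum.inr_injective.injOn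

theorem prod_split {α β : Type*} [Fintype α] [Fintype β] (m : α ⊕ β →₀ ℕ) (κ : α → ℂ) (p : β → ℂ) :
    (m.prod fun c n => Sum.elim κ p c ^ n) = ((left m).prod fun c n => κ c ^ n) * (right m).prod fun c n => p c ^ n := by
  rw [Finsupp.prod_fintype _ _ fun c => pow_zero _, Finsupp.prod_fintype _ _ fun c => pow_zero _,
    Finsupp.prod_fintype _ _ fun c => pow_zero _, Fintype.prod_sum_type]
  rfl

/-- Let `e_i`, `1 ≤ i ≤ k`, be admissible hypergeometric equations of even order, `q_i ≥ 0`, and `mon_1, …, mon_M` monomials
in the variables `κ_j`, `1 ≤ j ≤ r`, and the further coordinates. There are `γ > 0` and `C` such that for all complex numbers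
`κ_j` and complex matrices `Ω_i` there is a primitive recursive function `D` with the following property: for every box
`∏_i (x_i, x_i + N]` with `x_i ≥ 1` and for all but `C N^(k-1) ∑_i (1 + N / (x_i + N)^γ)` integral points `t` of the box, `D`
decides for all vectors `a`, `b` of natural numbers whether the combinations of the monomials with the coefficients `a` and `b`
have the same value at the periods of the fibres at `1 / t_i`. -/
theorem result (k : ℕ) (e : Fin k → Eqn) (he : ∀ i, (e i).Admissible) (heven : ∀ i, (e i).odd = false) (q : Fin k → ℕ)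
    (r M : ℕ) (mon : Fin M → (Coord r e q →₀ ℕ)) :
    ∃ γ C : ℝ, 0 < γ ∧ ∀ (κ : Fin r → ℂ) (Ω : ∀ i, Matrix (Fin (e i).order ⊕ Fin (q i)) (Fin (e i).order ⊕ Fin (q i)) ℂ),
      ∃ D : (Fin M → ℕ) × (Fin M → ℕ) → Bool, Primrec D ∧
      ∀ (x : Fin k → ℕ) (N : ℕ), (∀ i, 1 ≤ x i) → 1 ≤ N →
      (({t : Fin k → ℕ | (∀ i, x i < t i ∧ t i ≤ x i + N) ∧
        ¬ ∀ a b : Fin M → ℕ, D (a, b) = true ↔ value mon (periods κ Ω t) a = value mon (periods κ Ω t) b}.ncard : ℕ) : ℝ) ≤
        C * (N : ℝ) ^ (k - 1) * ∑ i, (1 + N / ((x i : ℝ) + N) ^ γ) := by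
  classical
  set δ : ℕ := Finset.univ.sup fun m => (right (mon m)).sum fun _ n => n with hδ
  obtain ⟨γ, C, hγ, hmain⟩ :=
    Pool.Agent.Results.MP_1eadae_ag.HypergeometricNormalFunctions.result k e he q δ M
  refine ⟨γ, C, hγ, fun κ Ω => ?_⟩
  -- the constants
  set kap : Fin M → ℂ := fun m => (left (mon m)).prod fun c n => κ c ^ n with hkap
  set V : Submodule ℚ ℂ := Submodule.span ℚ (Set.range kap) with hV
  have hVf : Module.Finite ℚ V := Module.Finite.span_of_finite ℚ (Set.finite_range kap)
  have hVr : Module.finrank ℚ V ≤ M := by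
    have h1 := finrank_range_le_card (R := ℚ) kap
    rwa [Fintype.card_fin] at h1
  -- the functions on the torsor
  set Θ : Type := {p : (Σ i : Fin k, Option ((Fin (e i).order ⊕ Fin (q i)) × (Fin (e i).order ⊕ Fin (q i)))) → ℂ //
    ∃ (l : Fin k → ℂ) (X : ∀ i, Matrix (Fin (e i).order) (Fin (e i).order) ℂ)
      (y : ∀ i, Matrix (Fin (e i).order) (Fin (q i)) ℂ), (∀ i, (X i).transpose * (e i).J * X i = (e i).J) ∧
      p = point l fun i => Matrix.fromBlocks (X i) (y i) 0 (unip (q i) (l i)) * Ω i} with hΘ
  have hB : ∀ i (z : ℂ), (e i).B z = (e i).J := by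
    intro i z
    ext a b
    unfold Eqn.B
    rw [Matrix.of_apply, heven i]
  set φ : Fin M → Θ → ℂ := fun m p => (mon m).prod fun c n => Sum.elim κ p.1 c ^ n with hφ
  obtain ⟨R, A, hA⟩ := Run7.h893.DP.exists_forms φ
  refine ⟨Run7.h893.DP.test A, Run7.h893.DP.primrec_test A, fun x N hx hN => ?_⟩
  refine le_trans (Nat.cast_le.2 (Set.ncard_le_ncard ?_ ?_)) (hmain V hVf hVr Ω x N hx hN)
  · rintro t ⟨hbox, hI⟩
    refine ⟨hbox, ?_⟩
    by_contra hE
    apply hI
    intro a b
    have ht2 : ∀ i, 2 ≤ t i := fun i => by
      have := (hbox i).1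
      have := hx i
      omega
    have hval : ∀ p : Coord r e q → ℂ, value mon p a = value mon p b ↔
        ∑ m, (((a m : ℤ) - b m : ℤ) : ℂ) * (mon m).prod (fun c n => p c ^ n) = 0 := by
      intro p
      rw [← sub_eq_zero]
      unfold value
      rw [← Finset.sum_sub_distrib]
      have h1 : ∑ m, ((a m : ℂ) * ((mon m).prod fun c n => p c ^ n) - (b m : ℂ) * (mon m).prod fun c n => p c ^ n) =
          ∑ m, (((a m : ℤ) - b m : ℤ) : ℂ) * (mon m).prod (fun c n => p c ^ n) := by
        refine Finset.sum_congr rfl fun m _ => ?_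
        push_cast
        ring
      rw [h1]
    have hzz : ∀ (z : ℤ) (w : ℂ), ((z : ℚ) : ℂ) * w = (z : ℂ) * w := fun z w => by push_cast; rfl
    rw [Run7.h893.DP.test_iff, ← hA, hval]
    constructor
    · intro h
      have hmem : ∃ (l : Fin k → ℂ) (X : ∀ i, Matrix (Fin (e i).order) (Fin (e i).order) ℂ)
          (y : ∀ i, Matrix (Fin (e i).order) (Fin (q i)) ℂ), (∀ i, (X i).transpose * (e i).J * X i = (e i).J) ∧
          (point (fun i => ((Real.log (t i) : ℝ) : ℂ)) fun i => Yfull (e i) (q i) (t i) * Ω i) =
            point l fun i => Matrix.fromBlocks (X i) (y i) 0 (unip (q i) (l i)) * Ω i := by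
        refine ⟨fun i => ((Real.log (t i) : ℝ) : ℂ), fun i => (e i).Y (t i),
          fun i => Pool.Agent.Results.MP_1eadae_ag.HypergeometricNormalFunctions.U (e i) (q i) (t i), fun i => ?_, rfl⟩
        have h1 : ((e i).Y (t i)).transpose * (e i).B (1 / (t i : ℂ)) * (e i).Y (t i) = (e i).J :=
          Run7.h893.NP.Y_mem (e i) (he i) (ht2 i)
        rwa [hB] at h1
      have h2 := congrFun h ⟨_, hmem⟩
      rw [Finset.sum_apply] at h2
      rw [Pi.zero_apply] at h2
      rw [← h2]
      refine Finset.sum_congr rfl fun m _ => ?_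
      rw [Pi.smul_apply, Rat.smul_def, hzz]
      rfl
    · intro h
      funext p
      obtain ⟨p, l, X, y, hX, rfl⟩ := p
      rw [Finset.sum_apply, Pi.zero_apply]
      -- the polynomial
      set P : MvPolynomial (Σ i : Fin k, Option ((Fin (e i).order ⊕ Fin (q i)) × (Fin (e i).order ⊕ Fin (q i)))) ℂ :=
        ∑ m, MvPolynomial.monomial (right (mon m)) ((((a m : ℤ) - b m : ℤ) : ℂ) * kap m) with hP
      have hPv : ∀ v, MvPolynomial.aeval v P =
          ∑ m, (((a m : ℤ) - b m : ℤ) : ℂ) * (mon m).prod (fun c n => Sum.elim κ v c ^ n) := by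
        intro v
        rw [hP, map_sum]
        refine Finset.sum_congr rfl fun m _ => ?_
        rw [MvPolynomial.aeval_monomial, prod_split]
        show (((a m : ℤ) - b m : ℤ) : ℂ) * kap m * _ = _
        rw [mul_assoc]
      have hPd : P.totalDegree ≤ δ := by
        refine MvPolynomial.totalDegree_finsetSum_le fun m _ => ?_
        refine (MvPolynomial.totalDegree_monomial_le _ _).trans ?_
        exact Finset.le_sup (f := fun m => (right (mon m)).sum fun _ n => n) (Finset.mem_univ m)
      have hPV : ∀ s, P.coeff s ∈ V := by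
        intro s
        rw [hP, MvPolynomial.coeff_sum]
        refine sum_mem fun m _ => ?_
        rw [MvPolynomial.coeff_monomial]
        split_ifs
        · have h3 : (((a m : ℤ) - b m : ℤ) : ℂ) * kap m = (((a m : ℤ) - b m : ℤ) : ℚ) • kap m := by
            rw [Rat.smul_def]
            push_cast
            rfl
          rw [h3]
          exact V.smul_mem _ (Submodule.subset_span ⟨m, rfl⟩)
        · exact V.zero_mem
      have hP0 : MvPolynomial.aeval (point (fun i => ((Real.log (t i) : ℝ) : ℂ)) fun i => Yfull (e i) (q i) (t i) * Ω i) P = 0 := by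
        rw [hPv]
        exact h
      have hPX : MvPolynomial.aeval (point l fun i => Matrix.fromBlocks (X i) (y i) 0 (unip (q i) (l i)) * Ω i) P = 0 := by
        by_contra hne
        refine hE ⟨P, hPd, hPV, hP0, l, X, y, fun i => ?_, hne⟩
        show (X i).transpose * (e i).B (1 / (t i : ℂ)) * X i = (e i).J
        rw [hB]
        exact hX i
      rw [hPv] at hPX
      rw [← hPX]
      refine Finset.sum_congr rfl fun m _ => ?_
      rw [Pi.smul_apply, Rat.smul_def, hzz]
  · refine (Set.finite_Iic (fun i : Fin k => x i + N)).subset ?_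
    intro t ht i
    exact (ht.1 i).2

end Pool.Agent.Results.MP_bbe012_lc.UniformDecisionProcedure
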